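import Pool.Agent.Y570.EO.Main

/-!
# EOL forms all of whose languages are context-free: consequences
-/

set_option autoImplicit false

namespace Pool.Agent.Y570.EO

open Pool.Agent.Helper230 Pool.Agent.Helper230.E Pool.Agent.Helper230.EForms

/-- nonlinear languages without insertions -/
theorem one {F : Gram} (hF : IsEOL F) {L : Set (List ℕ)} (hL : L ∈ eolFamily F) (hnl : L ∉ LIN)
    (hc : ∀ l y r, l ++ y ++ r ∈ L → l ++ r ∈ L → l ++ r ≠ [] → y = []) :
    ¬ FamLE (eolFamily F) CF := by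
  obtain ⟨F', hF', ⟨μ, hI⟩, rfl⟩ := hL
  intro h
  exact core hF hF' hI (fun h1 => hnl (lin_LIN h1)) hc h

/-- between a superlinear s-grammatical family and the context-free languages -/
theorem two {G F : Gram} (hG : IsCF G) (hF : IsEOL F) (h2 : FamLE (sFamily G) (eolFamily F))
    (h1 : FamLE (eolFamily F) CF) : FamLE (sFamily G) LIN := by
  intro L hL
  refine ⟨L, ?_, rfl⟩
  obtain ⟨τ, Q, hQ, ν, s, R, D, hs, hN, hD, hR, hRD, rfl⟩ := fam_gen hG hL
  rcases cf_dichotomy (gen_finite hG hR hRD) s with hlin | hDP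
  · exact lin_LIN hlin
  exfalso
  obtain ⟨x, u, a, v, y, r, b, t, z, hx, hu, ha, hv, hy, hr, hb, ht, hz, hgen⟩ :=
    Gen.of_DP hs hN hD hR hRD hDP
  obtain ⟨L1, ⟨F', hF', ⟨μ, hI⟩, rfl⟩, hL1⟩ := h2 _ (gen_fam hG hgen)
  have hL1' : ∀ w, w ≠ [] → (w ∈ eolLanguage F' ↔ ∃ n m, w = w0 x u a v y r b t z n m) := by
    intro w hw
    have h1 : w ∈ ({w | ∃ n m, w = w0 x u a v y r b t z n m} : Set (List ℕ)) \ {[]} ↔
        w ∈ eolLanguage F' \ {[]} := by rw [hL1]
    simp only [Set.mem_sdiff, Set.mem_ofPred_eq, Set.mem_singleton_iff, hw, not_false_eq_true,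
      and_true] at h1
    exact h1.symm
  exact core hF hF' hI (L0_not_lin hx hu ha hv hy hr hb ht hz hL1')
    (L0_cdf hx hu ha hv hy hr hb ht hz hL1') h1

/-- the words `a^n b c^n d^m e f^m` -/
def W6 (l : Fin 6 → ℕ) (n m : ℕ) : List ℕ :=
  List.replicate n (l 0) ++ ([l 1] ++ (List.replicate n (l 2) ++ (List.replicate m (l 3) ++
    ([l 4] ++ List.replicate m (l 5)))))

theorem rep_flat {g : ℕ → List ℕ} {c k : ℕ} (h : g c = [k]) (n : ℕ) :
    (List.replicate n c).flatMap g = List.replicate n k := by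
  induction n with
  | zero => rfl
  | succ n ih => rw [List.replicate_succ, List.flatMap_cons, ih, h]; rfl

theorem exists_g {l : Fin 6 → ℕ} (hl : Function.Injective l) :
    ∃ g : ℕ → List ℕ, ∀ n m, (W6 l n m).flatMap g = Pw n m := by
  classical
  refine ⟨fun c => if h : ∃ i, l i = c then [h.choose.val + 1] else [], fun n m => ?_⟩
  have key : ∀ i : Fin 6, (fun c => if h : ∃ i, l i = c then [h.choose.val + 1] else []) (l i) =
      [i.val + 1] := by
    intro i
    have hex : ∃ j, l j = l i := ⟨i, rfl⟩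
    have h1 : hex.choose = i := hl hex.choose_spec
    beta_reduce
    rw [dif_pos hex, h1]
  unfold W6 Pw
  simp only [List.flatMap_append]
  rw [rep_flat (key 0), rep_flat (key 2), rep_flat (key 3), rep_flat (key 5),
    List.flatMap_singleton, List.flatMap_singleton]
  have k1 := key 1
  have k4 := key 4
  beta_reduce at k1 k4
  rw [k1, k4]
  rfl

theorem three {F : Gram} (hF : IsEOL F) {l : Fin 6 → ℕ} (hl : Function.Injective l)
    {L : Set (List ℕ)} (hL : L ∈ eolFamily F)
    (hL1 : L \ {[]} = {w | ∃ n m, w = W6 l n m}) : ¬ FamLE (eolFamily F) CF := by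
  obtain ⟨F', hF', ⟨μ, hI⟩, rfl⟩ := hL
  obtain ⟨g, hg⟩ := exists_g hl
  intro h
  have hmem : ∀ w, w ≠ [] → (w ∈ eolLanguage F' ↔ ∃ n m, w = W6 l n m) := by
    intro w hw
    have h1 : w ∈ eolLanguage F' \ {[]} ↔ w ∈ {w | ∃ n m, w = W6 l n m} := by rw [hL1]
    simp only [Set.mem_sdiff, Set.mem_ofPred_eq, Set.mem_singleton_iff, hw, not_false_eq_true,
      and_true] at h1
    exact h1
  refine core hF hF' hI ?_ ?_ h
  · intro hlin
    refine not_lin_Pw (K := {w | ∃ w' ∈ eolLanguage F', w = w'.flatMap g}) ?_ ?_ (hlin.map g)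
    · rintro _ ⟨w', h1, rfl⟩ hne
      have hne' : w' ≠ [] := by rintro rfl; exact hne rfl
      obtain ⟨n, m, rfl⟩ := (hmem w' hne').1 h1
      exact ⟨n, m, hg n m⟩
    · intro n m
      refine ⟨_, (hmem _ ?_).2 ⟨n, m, rfl⟩, (hg n m).symm⟩
      intro h0
      have h1 := hg n m
      rw [h0] at h1
      simp [Pw] at h1
  · intro l' y' r' h1 h2 hne
    have hne' : l' ++ y' ++ r' ≠ [] := by
      intro h
      apply hne
      simp only [List.append_eq_nil_iff] at h ⊢
      exact ⟨h.1.1, h.2⟩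
    obtain ⟨n, m, h3⟩ := (hmem _ hne').1 h1
    obtain ⟨n', m', h4⟩ := (hmem _ hne).1 h2
    have h5 := congrArg (fun w => w.flatMap g) h3
    have h6 := congrArg (fun w => w.flatMap g) h4
    simp only [hg, List.flatMap_append, List.append_assoc] at h5 h6
    obtain ⟨rfl, rfl⟩ := Pw_cdf h5 h6
    rw [← h4] at h3
    have h7 := congrArg List.length h3
    simp only [List.length_append] at h7
    exact List.eq_nil_of_length_eq_zero (by omega)

end Pool.Agent.Y570.EO
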