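import Pool.Agent.Helper230.EGlueE

/-!
# EOL forms all of whose languages are context-free

If the family of an EOL form contains a nonlinear language `L` such that no nonempty word of `L` arises
from another word of `L` by deleting a factor, then it contains a language that is not context-free.
-/

set_option autoImplicit false

namespace Pool.Agent.Y570.EO

open Pool.Agent.Helper230 Pool.Agent.Helper230.E Pool.Agent.Helper230.EForms

/-- The family of context-free languages. -/
def CF : Set (Set (List ℕ)) := {L | ∃ G, IsCF G ∧ L = cfLanguage G}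

/-- A context-free grammar is an s-interpretation of itself. -/
theorem self_mem {G : Gram} (hG : IsCF G) : cfLanguage G ∈ sFamily G := by
  refine ⟨G, hG, ⟨fun x => {x}, ?_, ?_, ?_, ?_, ?_⟩, rfl⟩
  · intro a ha x hx
    rw [Finset.mem_singleton] at hx
    rw [hx]
    exact ha
  · intro A hA x hx
    rw [Finset.mem_singleton] at hx
    rw [hx]
    exact hA
  · intro X _ Y _ hne
    rw [Finset.disjoint_singleton]
    exact hne
  · intro p hp
    refine ⟨p, hp, Finset.mem_singleton_self _, ?_⟩
    rw [List.forall₂_same]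
    intro x _
    exact Finset.mem_singleton_self x
  · exact Finset.mem_singleton_self _

/-- The s-grammatical family of a context-free form consists of context-free languages. -/
theorem sFamily_CF (G : Gram) : FamLE (sFamily G) CF := by
  rintro L ⟨G', hG', _, rfl⟩
  exact ⟨_, ⟨G', hG', rfl⟩, rfl⟩

/-- The main step. -/
theorem core {F F' : Gram} (hF : IsEOL F) (hF' : IsEOL F') {μ : ℕ → Finset ℕ}
    (hI : IsInterp F' F μ) (hnl : ¬ Lin (eolLanguage F')) (hcdf1 : CDF (eolLanguage F'))
    (h : FamLE (eolFamily F) CF) : False := by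
  classical
  let Q1 := {x // x ∈ F'.V}
  let pr : Q1 → List Q1 → Prop := fun X α => (X.1, α.map Subtype.val) ∈ F'.P
  let tm : Q1 → Prop := fun X => X.1 ∈ F'.T
  let S0 : Q1 := ⟨F'.S, hF'.start⟩
  have hinj : Function.Injective (Subtype.val : Q1 → ℕ) := Subtype.val_injective
  have hpr : ∀ X, {α | pr X α}.Finite := by
    intro X
    have h1 : {β | (X.1, β) ∈ F'.P}.Finite := by
      refine (F'.P.finite_toSet.image Prod.snd).subset ?_
      intro β hβ
      exact ⟨_, hβ, rfl⟩
    exact Set.Finite.preimage (f := List.map Subtype.val) (hinj.list_map.injOn) h1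
  have htot : ∀ X, ∃ α, pr X α := by
    intro X
    obtain ⟨γ, hγ⟩ := hF'.total X.1 X.2
    obtain ⟨α, rfl⟩ := lift_list (hF'.prod _ hγ).2
    exact ⟨α, hγ⟩
  have hlang := eol_lang F' (Subtype.val : Q1 → ℕ) pr tm S0 rfl (fun q α h => h)
    (fun q γ h => by
      obtain ⟨α, rfl⟩ := lift_list (hF'.prod _ h).2
      exact ⟨α, h, rfl⟩) (fun q => Iff.rfl)
  rcases dichotomy tm hpr S0 with hlin | hC
  · refine hnl ?_
    rw [hlang]
    have h1 := hlin.map (fun q : Q1 => [q.1])
    have h2 : ∀ w' : List Q1, w'.flatMap (fun q : Q1 => [q.1]) = w'.map Subtype.val := by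
      intro w'
      induction w' with
      | nil => rfl
      | cons q w' ih => rw [List.flatMap_cons, ih]; rfl
    simp only [h2] at h1
    exact h1
  obtain ⟨C⟩ := hC
  have hcdf : CDF {w | ∃ τ, Yd pr tm τ [S0] w} := by
    intro l y' r' h1 h2 hne
    have h3 := hcdf1 (l.map Subtype.val) (y'.map Subtype.val) (r'.map Subtype.val)
      (by rw [hlang]; exact ⟨_, h1, by simp⟩) (by rw [hlang]; exact ⟨_, h2, by simp⟩)
      (by
        intro h
        apply hne
        simp only [List.append_eq_nil_iff, List.map_eq_nil_iff] at h ⊢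
        exact h)
    exact List.map_eq_nil_iff.1 h3
  obtain ⟨Q', hQ', st, pr', S', hst, hfin', htot', hpr', good, f, hg1, hg2⟩ :=
    refine_main C hpr htot hcdf
  -- types of the letters
  have hty : ∀ X : Q1, ∃ Y ∈ F.V, X.1 ∈ μ Y := by
    intro X
    obtain ⟨γ, hγ⟩ := hF'.total X.1 X.2
    obtain ⟨p, hp, h1, -⟩ := hI.prod _ hγ
    exact ⟨p.1, (hF.prod p hp).1, h1⟩
  choose ty hty1 hty2 using hty
  have huniq : ∀ z x y, x ∈ F.V → y ∈ F.V → z ∈ μ x → z ∈ μ y → x = y := by
    intro z x y hx hy h1 h2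
    by_contra hne
    exact (Finset.disjoint_left.1 (hI.disj x hx y hy hne)) h1 h2
  have htyP : ∀ X α, pr X α → (ty X, α.map ty) ∈ F.P := by
    intro X α hXα
    obtain ⟨⟨Y, γ⟩, hp, h1, h2⟩ := hI.prod _ hXα
    dsimp only at h1 h2
    have hwf := hF.prod _ hp
    dsimp only at hwf
    have e1 : ty X = Y := huniq _ _ _ (hty1 X) hwf.1 (hty2 X) h1
    have e2 : α.map ty = γ := by
      have hγ := hwf.2
      clear hp hwf hXα
      induction α generalizing γ with
      | nil =>
        cases γ with
        | nil => rfl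
        | cons y γ => simp at h2
      | cons q α ih =>
        cases γ with
        | nil => simp at h2
        | cons y γ =>
          rw [List.map_cons, List.forall₂_cons] at h2
          rw [List.map_cons, ih γ h2.2 (fun y hy => hγ y (List.mem_cons_of_mem _ hy)),
            huniq _ _ _ (hty1 q) (hγ y List.mem_cons_self) (hty2 q) h2.1]
    rw [e1, e2]
    exact hp
  have htyT : ∀ X, tm X ↔ ty X ∈ F.T := by
    intro X
    constructor
    · intro h1
      by_contra h2
      exact (Finset.mem_sdiff.1 (hI.nonter (ty X) (Finset.mem_sdiff.2 ⟨hty1 X, h2⟩)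
        (hty2 X))).2 h1
    · intro h1
      exact hI.ter _ h1 (hty2 X)
  have hS0 : ty S0 = F.S := huniq _ _ _ (hty1 S0) hF.start (hty2 S0) hI.start
  obtain ⟨e, he, hmem⟩ := exists_eol (F := F) (fun q => ty (st q)) pr' hfin'
    htot' S' (by rw [hst]; exact hS0) (fun q α h => by
      have := htyP _ _ (hpr' q α h)
      rw [List.map_map] at this
      exact this)
  obtain ⟨L3, ⟨G, hG, hL3G⟩, hL3'⟩ := h _ hmem
  have hL3 : L3 ∈ sFamily G := by
    rw [hL3G]
    exact self_mem hG
  clear hL3G
  obtain ⟨τ3, Q3, hQ3, ν3, s3, R3, D3, hs3, hN3, hD3, hR3, hRD3, rfl⟩ := fam_gen hG hL3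
  have hmem3 : ∀ w, w ≠ [] → (Der (ExR R3) [Sum.inl s3] w ↔
      ∃ w' : List Q', (∃ τ, Yd pr' (fun q => tm (st q)) τ [S'] w') ∧ w = w'.map e) := by
    intro w hw
    have h1 : w ∈ ({w | ∃ w' : List Q', (∃ τ, Yd pr' (fun q => ty (st q) ∈ F.T) τ [S'] w') ∧
        w = w'.map e} : Set (List ℕ)) \ {[]} ↔ w ∈ {w | Der (ExR R3) [Sum.inl s3] w} \ {[]} := by
      rw [hL3']
    simp only [Set.mem_sdiff, Set.mem_ofPred_eq, Set.mem_singleton_iff, hw, not_false_eq_true,
      and_true] at h1
    have h2 : (fun q => tm (st q)) = (fun q => ty (st q) ∈ F.T) := by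
      funext q
      exact propext (htyT _)
    rw [h2]
    exact h1.symm
  let f3 : ℕ → List Mk := fun c => if h : ∃ q, e q = c then f h.choose else []
  have hf3 : ∀ q, f3 (e q) = f q := by
    intro q
    have hq : ∃ q', e q' = e q := ⟨q, rfl⟩
    simp only [f3, dif_pos hq]
    rw [he hq.choose_spec]
  have hf3w : ∀ w : List Q', (w.map e).flatMap f3 = w.flatMap f := by
    intro w
    induction w with
    | nil => rfl
    | cons q w ih => rw [List.map_cons, List.flatMap_cons, List.flatMap_cons, ih, hf3]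
  obtain ⟨Fb, hFb⟩ := (Set.finite_range (fun q => (f q).length)).bddAbove
  refine not_cf (gen_finite hG hR3 hRD3) s3 (fun c => ∃ q, e q = c ∧ good q) (f := f3) (F := Fb)
    ?_ ?_ ?_
  · intro c
    by_cases hc : ∃ q, e q = c
    · obtain ⟨q, rfl⟩ := hc
      rw [hf3]
      exact hFb ⟨q, rfl⟩
    · simp only [f3, dif_neg hc]
      exact Nat.zero_le _
  · intro w hw hder hgood
    obtain ⟨w', hw', rfl⟩ := (hmem3 w hw).1 hder
    have hne : w' ≠ [] := by rintro rfl; exact hw rfl
    obtain ⟨i, hi⟩ := hg1 w' hne hw' (fun q hq => by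
      obtain ⟨q', h1, h2⟩ := hgood (e q) (List.mem_map_of_mem hq)
      rwa [← he h1])
    exact ⟨i, by rw [hf3w]; exact hi⟩
  · intro i
    obtain ⟨w', hw', hgood, hi⟩ := hg2 i
    have hne : w' ≠ [] := by
      rintro rfl
      simp [List.replicate_succ] at hi
    refine ⟨w'.map e, (hmem3 _ (by simpa using hne)).2 ⟨w', hw', rfl⟩, ?_, by
      rw [hf3w]; exact hi⟩
    intro c hc
    rw [List.mem_map] at hc
    obtain ⟨q, hq, rfl⟩ := hc
    exact ⟨q, rfl, hgood q hq⟩


end Pool.Agent.Y570.EO
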